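import Mathlib

set_option autoImplicit false
set_option maxHeartbeats 400000

open Filter Topology Matrix

namespace Pool.Agent.Results.MP_3f52e1_an.NoRate

/-- real 4 by 4 matrices -/
abbrev Mat : Type := Matrix (Fin 4) (Fin 4) ℝ

/-- the product of the first `n` factors `A k * B k`, later factors on the left -/
def P (A B : ℕ → Mat) : ℕ → Mat
  | 0 => 1
  | n + 1 => A n * B n * P A B n

/-- largest absolute value of an entry -/
noncomputable def nrm (X : Mat) : ℝ := ‖(fun i j => X i j : Fin 4 → Fin 4 → ℝ)‖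

open Classical in
noncomputable def c (i : ℕ) : Bool := decide (∃ j, i = 2 ^ j)

noncomputable def dg (d : Bool) : ℝ := if d then 5 else 0

theorem dg0 (d : Bool) : 0 ≤ dg d := by unfold dg; split_ifs <;> norm_num
theorem dg5 (d : Bool) : dg d ≤ 5 := by unfold dg; split_ifs <;> norm_num

noncomputable def x (n : ℕ) : ℝ := ∑' i, dg (c (n + i)) * (1 / 6) ^ (i + 1)

theorem hs : HasSum (fun i : ℕ => (5 : ℝ) * (1 / 6) ^ (i + 1)) 1 := by
  have := (hasSum_geometric_of_lt_one (r := (1 / 6 : ℝ)) (by norm_num) (by norm_num)).mul_left (5 / 6)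
  rw [show (5 / 6 : ℝ) * (1 - 1 / 6)⁻¹ = 1 by norm_num] at this
  rwa [show (fun i : ℕ => (5 : ℝ) * (1 / 6) ^ (i + 1)) = fun i => 5 / 6 * (1 / 6) ^ i from
    funext fun i => by ring]

theorem le5 (n i : ℕ) : dg (c (n + i)) * (1 / 6 : ℝ) ^ (i + 1) ≤ 5 * (1 / 6) ^ (i + 1) := by
  gcongr; exact dg5 _

theorem sm (n : ℕ) : Summable fun i => dg (c (n + i)) * (1 / 6 : ℝ) ^ (i + 1) :=
  .of_nonneg_of_le (fun _ => mul_nonneg (dg0 _) (by positivity)) (le5 n) hs.summable

theorem x0 (n : ℕ) : 0 ≤ x n := tsum_nonneg fun _ => mul_nonneg (dg0 _) (by positivity)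
theorem x1 (n : ℕ) : x n ≤ 1 := by
  rw [← hs.tsum_eq]; exact (sm n).tsum_le_tsum (le5 n) hs.summable

theorem xs (n : ℕ) : x (n + 1) = 6 * x n - dg (c n) := by
  have : ∑' i, dg (c (n + (i + 1))) * (1 / 6 : ℝ) ^ (i + 1 + 1) = x (n + 1) * (1 / 6) := by
    rw [x, ← tsum_mul_right]; congr 1; funext i
    rw [show n + (i + 1) = n + 1 + i by ring]; ring
  rw [x, x, (sm n).tsum_eq_zero_add, this, x]; simp; ring

noncomputable def Bd (d : Bool) : Mat :=
  !![3, -(dg d) / 2, 0, 0; 0, 1 / 2, 0, 0; 0, 0, if d then 0 else 128, 0;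
    0, 0, if d then 128 else 0, 1 / 2]

noncomputable def BH : Mat := !![x 0, 0, x 0, x 0; 1, 0, 1, 1; 0, 0, 0, 0; 0, 0, 0, 0]

def Aa (a : Bool) : Mat := if a then !![0, 0, 0, 0; 0, 0, 0, 0; 0, 1, 0, 0; 0, 0, 0, 0] else 1

def φ (v : Fin 4 → ℝ) : ℝ := v 0 + v 2 + v 3

theorem bd (d : Bool) (u s b z : ℝ) : Bd d *ᵥ ![u, s, b, z] =
    ![3 * u - dg d * s / 2, s / 2, if d then 0 else 128 * b, (if d then 128 * b else 0) + z / 2] := by
  ext i; fin_cases i <;> cases d <;> simp [Bd, mulVec, dotProduct, Fin.sum_univ_four] <;> ring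

theorem bh (v : Fin 4 → ℝ) : BH *ᵥ v = φ v • ![x 0, 1, 0, 0] := by
  ext i; fin_cases i <;> simp [BH, φ, mulVec, dotProduct, Fin.sum_univ_four] <;> ring

theorem aj (v : Fin 4 → ℝ) : Aa true *ᵥ v = ![0, 0, v 1, 0] := by
  ext i; fin_cases i <;> simp [Aa, mulVec, dotProduct, Fin.sum_univ_four]

theorem ai (v : Fin 4 → ℝ) : Aa false *ᵥ v = v := by simp [Aa]

noncomputable def g (a w : ℕ → Bool) : ℕ → Fin 4 → ℝ
  | 0 => Aa (a 0) *ᵥ ![x 0, 1, 0, 0]
  | i + 1 => Aa (a (i + 1)) *ᵥ (Bd (w i) *ᵥ g a w i)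

noncomputable def y (w : ℕ → Bool) : ℕ → ℝ
  | 0 => x 0
  | i + 1 => 6 * y w i - dg (w i)

theorem nj (a w : ℕ → Bool) (k : ℕ) (h : ∀ i ≤ k, a i = false) :
    g a w k = ![y w k / 2 ^ k, 1 / 2 ^ k, 0, 0] := by
  induction k with
  | zero => simp [g, h 0 le_rfl, ai, y]
  | succ k ih =>
    rw [g, h _ le_rfl, ai, ih fun i hi => h i (by omega), bd, y]
    ext i; fin_cases i <;> simp <;> field_simp <;> ring

theorem jk (a w : ℕ → Bool) (k : ℕ) (h : ∀ i < k, a i = false) (h' : a k = true) :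
    g a w k = ![0, 0, 1 / 2 ^ k, 0] := by
  cases k with
  | zero => simp [g, h', aj]
  | succ k =>
    rw [g, h', aj, nj a w k fun i hi => h i (by omega), bd]
    simp; field_simp; ring

theorem yx (w : ℕ → Bool) (n : ℕ) (h : ∀ i < n, w i = c i) : y w n = x n := by
  induction n with
  | zero => rfl
  | succ n ih => rw [y, ih fun i hi => h i (by omega), h n (by omega), xs]

theorem dev (w : ℕ → Bool) (n : ℕ) (h : ∀ i < n, w i = c i) (h' : w n ≠ c n) (t : ℕ) :
    4 ^ (t + 1) ≤ |y w (n + 1 + t)| := by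
  have e := yx w n h
  have a0 := x0 (n + 1); have a1 := x1 (n + 1); have a2 := xs n
  cases hc : c n
  · have hw : w n = true := by simpa [hc] using h'
    have : ∀ t, y w (n + 1 + t) ≤ -4 ^ (t + 1) := by
      intro t
      induction t with
      | zero => simp [y, e, hw, hc, dg] at *; linarith
      | succ t ih =>
        have := dg0 (w (n + 1 + t))
        have p : (0 : ℝ) < 4 ^ (t + 1) := by positivity
        rw [← add_assoc, y, pow_succ _ (t + 1)]; linarith
    exact le_abs.2 (.inr (by linarith [this t]))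
  · have hw : w n = false := by simpa [hc] using h'
    have : ∀ t, 4 ^ (t + 1) + 1 ≤ y w (n + 1 + t) := by
      intro t
      induction t with
      | zero => simp [y, e, hw, hc, dg] at *; linarith
      | succ t ih =>
        have := dg5 (w (n + 1 + t))
        have p : (0 : ℝ) < 4 ^ (t + 1) := by positivity
        rw [← add_assoc, y, pow_succ _ (t + 1)]; linarith
    exact le_abs.2 (.inl (by linarith [this t]))

theorem jump (w : ℕ → Bool) (k r : ℕ) (h : ∀ i, i + 1 < r → w (k + i) = false) (t : ℕ) :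
    ∃ b z : ℝ, g (fun i => decide (i = k)) w (k + t) = ![0, 0, b, z] ∧ 0 ≤ b ∧ 0 ≤ z ∧
      (t < r → b = 128 ^ t / 2 ^ k) ∧ 256 ^ min t r / 2 ^ (k + t) ≤ b + z := by
  induction t with
  | zero => exact ⟨_, _, jk _ w k (fun i hi => by simp; omega) (by simp), by positivity, le_rfl,
      fun _ => by simp, by simp⟩
  | succ t ih =>
    obtain ⟨b, z, e, b0, z0, hb, hz⟩ := ih
    refine ⟨if w (k + t) then 0 else 128 * b, (if w (k + t) then 128 * b else 0) + z / 2, ?_, ?_, ?_, ?_, ?_⟩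
    · rw [← add_assoc, g, e, bd, show decide (k + t + 1 = k) = false by simp; omega, ai]; simp
    · split_ifs <;> positivity
    · split_ifs <;> positivity
    · intro ht; rw [h t ht, hb (by omega)]; simp; ring
    · have q : (if w (k + t) then 0 else 128 * b) + ((if w (k + t) then 128 * b else 0) + z / 2)
          = 128 * b + z / 2 := by split_ifs <;> ring
      rw [q]
      by_cases ht : t < r
      · rw [hb ht, min_eq_left (by omega)]
        have : (256 : ℝ) ^ (t + 1) / 2 ^ (k + (t + 1)) = 128 * (128 ^ t / 2 ^ k) := by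
          rw [show (256 : ℝ) = 128 * 2 by norm_num, mul_pow]; field_simp; ring
        rw [this]; linarith
      · rw [min_eq_right (by omega)] at *
        rw [← add_assoc, pow_succ, ← div_div]; linarith

theorem run (m : ℕ) : ∃ k r, k + r ≤ m ∧ m ≤ 8 * r ∧
    ∀ i, i + 1 < r → c (k + i) = false ∧ 2 * (k + i) ≤ m := by
  rcases Nat.eq_zero_or_pos m with rfl | h
  · exact ⟨0, 0, by simp⟩
  by_cases h8 : m ≤ 8
  · exact ⟨0, 1, by omega, by omega, fun i hi => by omega⟩
  obtain ⟨j, hj⟩ : ∃ j, Nat.log 2 (m / 2) = j + 1 :=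
    ⟨_, (Nat.succ_pred_eq_of_pos (Nat.log_pos (by norm_num) (by omega))).symm⟩
  have l1 := Nat.pow_log_le_self 2 (x := m / 2) (by omega)
  have l2 := Nat.lt_pow_succ_log_self (b := 2) (by norm_num) (m / 2)
  rw [hj] at l1 l2
  rw [Nat.succ_eq_add_one, pow_succ, pow_succ] at l2
  rw [pow_succ] at l1
  refine ⟨2 ^ j + 1, 2 ^ j, by omega, by omega, fun i hi => ⟨?_, by omega⟩⟩
  simp only [c, decide_eq_false_iff_not]
  rintro ⟨l, hl⟩
  have a : 2 ^ j < 2 ^ l := by omega
  have b : 2 ^ l < 2 ^ (j + 1) := by rw [pow_succ]; omega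
  rw [Nat.pow_lt_pow_iff_right (by norm_num)] at a b; omega

theorem seg (w : ℕ → Bool) (m : ℕ) : ∃ a, 1 ≤ |φ (g a w m)| := by
  by_cases h : ∃ n, n < m ∧ 2 * n ≤ m ∧ w n ≠ c n
  · classical
    obtain ⟨h1, h2, h3⟩ := Nat.find_spec h
    have h4 : ∀ i < Nat.find h, w i = c i := fun i hi => by
      by_contra hh; exact Nat.find_min h hi ⟨by omega, by omega, hh⟩
    generalize Nat.find h = n at *
    obtain ⟨t, rfl⟩ : ∃ t, m = n + 1 + t := ⟨m - (n + 1), by omega⟩
    refine ⟨fun _ => false, ?_⟩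
    rw [nj _ _ _ fun _ _ => rfl]
    have := dev w n h4 h3 t
    have q : (2 : ℝ) ^ (n + 1 + t) ≤ 4 ^ (t + 1) := by
      rw [show (4 : ℝ) = 2 ^ 2 by norm_num, ← pow_mul]
      exact pow_le_pow_right₀ (by norm_num) (by omega)
    simp only [φ]; simp
    rw [abs_div, abs_of_pos (a := (2 : ℝ) ^ _) (by positivity), le_div_iff₀ (by positivity)]
    linarith
  · push Not at h
    obtain ⟨k, r, h1, h2, h3⟩ := run m
    obtain ⟨t, rfl⟩ : ∃ t, m = k + t := ⟨m - k, by omega⟩
    obtain ⟨b, z, e, b0, z0, -, hz⟩ := jump w k r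
      (fun i hi => by rw [h _ (by omega) (h3 i hi).2, (h3 i hi).1]) t
    refine ⟨fun i => decide (i = k), ?_⟩
    rw [e]
    rw [min_eq_right (by omega)] at hz
    have q : (2 : ℝ) ^ (k + t) ≤ 256 ^ r := by
      rw [show (256 : ℝ) = 2 ^ 8 by norm_num, ← pow_mul]
      exact pow_le_pow_right₀ (by norm_num) h2
    have : (1 : ℝ) ≤ 256 ^ r / 2 ^ (k + t) := by rw [le_div_iff₀ (by positivity)]; linarith
    simp only [φ]; simp
    exact le_abs.2 (.inl (by linarith))

def SA : Set Mat := {Aa false, Aa true}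
def SB : Set Mat := {Bd false, Bd true, BH}

theorem aS (a : Bool) : Aa a ∈ SA := by cases a <;> simp [SA]

def R (B : ℕ → Mat) (n : ℕ) (v : Fin 4 → ℝ) : Prop :=
  ∃ A : ℕ → Mat, (∀ k, A k ∈ SA) ∧ P A B n *ᵥ ![1, 0, 0, 0] = v

theorem pre (A A' B : ℕ → Mat) (n : ℕ) (h : ∀ i < n, A i = A' i) : P A B n = P A' B n := by
  induction n with
  | zero => rfl
  | succ n ih => rw [P, P, ih fun i hi => h i (by omega), h n (by omega)]

theorem step {B : ℕ → Mat} {n : ℕ} {v : Fin 4 → ℝ} (h : R B n v) (a : Bool) :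
    R B (n + 1) (Aa a *ᵥ (B n *ᵥ v)) := by
  obtain ⟨A, hA, e⟩ := h
  refine ⟨Function.update A n (Aa a), fun k => ?_, ?_⟩
  · by_cases hk : k = n
    · subst hk; simp [aS]
    · simp [hk, hA]
  · rw [P, pre _ A B n fun i hi => by simp [hi.ne], ← e]; simp [Matrix.mul_assoc]

theorem last (B : ℕ → Mat) (m : ℕ) : (∀ i < m, B i ≠ BH) ∨
    ∃ p < m, B p = BH ∧ ∀ i, p < i → i < m → B i ≠ BH := by
  induction m with
  | zero => simp
  | succ m ih =>
    by_cases h : B m = BH
    · exact .inr ⟨m, by omega, h, fun i _ _ => by omega⟩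
    rcases ih with ih | ⟨p, h1, h2, h3⟩
    · exact .inl fun i hi => by
        rcases Nat.lt_succ_iff_lt_or_eq.1 hi with hi | rfl
        exacts [ih i hi, h]
    · exact .inr ⟨p, by omega, h2, fun i h4 hi => by
        rcases Nat.lt_succ_iff_lt_or_eq.1 hi with hi | rfl
        exacts [h3 i h4 hi, h]⟩

theorem dB {X : Mat} (h : X ∈ SB) (h' : X ≠ BH) : ∃ d, X = Bd d := by
  rcases h with h | h | h
  exacts [⟨_, h⟩, ⟨_, h⟩, (h' h).elim]

theorem big (B : ℕ → Mat) (hB : ∀ n, B n ∈ SB) (m : ℕ) : ∃ v, R B m v ∧ 1 ≤ |φ v| := by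
  induction m using Nat.strong_induction_on with
  | _ m ih =>
  rcases last B m with h | ⟨p, h1, h2, h3⟩
  · have : ∀ i ≤ m, R B i ![3 ^ i, 0, 0, 0] := by
      intro i hi
      induction i with
      | zero => exact ⟨fun _ => Aa false, fun _ => aS _, by simp [P]⟩
      | succ i ii =>
        obtain ⟨d, hd⟩ := dB (hB i) (h i hi)
        have := step (ii (by omega)) false
        rw [ai, hd, bd] at this
        simpa [pow_succ'] using this
    refine ⟨_, this m le_rfl, ?_⟩
    simp only [φ]; simp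
    exact one_le_pow₀ (by norm_num)
  · obtain ⟨v, hv, hφ⟩ := ih p h1
    obtain ⟨t, rfl⟩ : ∃ t, m = p + 1 + t := ⟨m - (p + 1), by omega⟩
    have : ∀ i, ∃ d, i < t → B (p + 1 + i) = Bd d := fun i => by
      by_cases hi : i < t
      · obtain ⟨d, hd⟩ := dB (hB _) (h3 (p + 1 + i) (by omega) (by omega))
        exact ⟨d, fun _ => hd⟩
      · exact ⟨true, fun h => (hi h).elim⟩
    choose w hw using this
    obtain ⟨a, ha⟩ := seg w t
    have : ∀ i ≤ t, R B (p + 1 + i) (φ v • g a w i) := by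
      intro i hi
      induction i with
      | zero =>
        have := step hv (a 0)
        rwa [h2, bh, mulVec_smul] at this
      | succ i ii =>
        have := step (ii (by omega)) (a (i + 1))
        rwa [hw i hi, mulVec_smul, mulVec_smul] at this
    refine ⟨_, this t le_rfl, ?_⟩
    have : φ (φ v • g a w t) = φ v * φ (g a w t) := by simp only [φ, Pi.smul_apply, smul_eq_mul]; ring
    rw [this, abs_mul]; nlinarith

theorem half {f : ℕ → Fin 4 → ℝ} (k : ℕ) (C : ℝ) (h : ∀ t i, |f (k + t) i| ≤ C / 2 ^ t) :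
    Tendsto f atTop (𝓝 0) := by
  rw [← tendsto_add_atTop_iff_nat k, tendsto_pi_nhds]
  intro i
  have : Tendsto (fun t : ℕ => C / 2 ^ t) atTop (𝓝 0) :=
    tendsto_const_nhds.div_atTop (tendsto_pow_atTop_atTop_of_one_lt (by norm_num))
  exact squeeze_zero_norm (fun t => by rw [add_comm]; exact h t i) this

theorem v4 (v : Fin 4 → ℝ) : v = ![v 0, v 1, v 2, v 3] := by ext i; fin_cases i <;> rfl

theorem g0 (a : ℕ → Bool) : Tendsto (g a c) atTop (𝓝 0) := by
  by_cases h : ∀ i, a i = false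
  · refine half 0 1 fun t i => ?_
    rw [zero_add, nj a c t fun i _ => h i, yx c t fun _ _ => rfl]
    have := x0 t; have := x1 t
    fin_cases i <;> simp
    rw [abs_div, abs_of_nonneg (x0 t), abs_of_pos (a := (2 : ℝ) ^ t) (by positivity), ← one_div]
    gcongr
  · push Not at h
    obtain ⟨k, hk⟩ := h
    have h1 : ∀ t, ∃ b z, g a c (k + t) = ![0, 0, b, z] := by
      intro t
      induction t with
      | zero =>
        rw [Bool.ne_false_iff] at hk
        cases k <;> rw [add_zero, g, hk, aj] <;> exact ⟨_, _, rfl⟩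
      | succ t ih =>
        obtain ⟨b, z, e⟩ := ih
        rw [← add_assoc, g, e, bd]
        cases a (k + t + 1) <;> simp [ai, aj]
    obtain ⟨t, ht⟩ : ∃ t, 2 ^ k = k + t := ⟨2 ^ k - k, by have := @Nat.lt_two_pow_self k; omega⟩
    obtain ⟨b, z, e⟩ := h1 t
    rw [← ht] at e
    have hc : c (2 ^ k) = true := by simp [c]
    have h2 : ∀ t, ∃ z', g a c (2 ^ k + 1 + t) = ![0, 0, 0, z'] ∧ |z'| ≤ |128 * b + z / 2| / 2 ^ t := by
      intro t
      induction t with
      | zero =>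
        rw [add_zero, g, e, bd, hc]
        cases a (2 ^ k + 1) <;> simp [ai, aj]
      | succ t ih =>
        obtain ⟨z', e, hz⟩ := ih
        rw [← add_assoc, g, e, bd]
        cases a (2 ^ k + 1 + t + 1) <;> simp [ai, aj]
        · rw [abs_div, pow_succ, ← div_div]; simp; gcongr
        · positivity
    refine half (2 ^ k + 1) |128 * b + z / 2| fun t i => ?_
    obtain ⟨z', e, hz⟩ := h2 t
    rw [e]
    fin_cases i <;> simp <;> first | positivity | exact hz

theorem result : ∃ SA SB : Set Mat, SA.Finite ∧ SB.Finite ∧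
    (∃ B : ℕ → Mat, (∀ n, B n ∈ SB) ∧ ∀ A : ℕ → Mat, (∀ n, A n ∈ SA) →
      Tendsto (fun n => nrm (P A B n)) atTop (𝓝 0)) ∧
    ∀ B : ℕ → Mat, (∀ n, B n ∈ SB) → ∀ C l : ℝ, 0 < C → 0 < l → l < 1 →
      ∃ A : ℕ → Mat, (∀ n, A n ∈ SA) ∧ ∃ n, 1 ≤ n ∧ C * l ^ n < nrm (P A B n) := by
  refine ⟨SA, SB, by simp [SA], by simp [SB], ⟨fun n => Nat.casesOn n BH fun i => Bd (c i), ?_, ?_⟩, ?_⟩
  · rintro (_ | n)
    · simp [SB]
    · show Bd (c n) ∈ SB
      cases c n <;> simp [SB]
  · intro A hA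
    have : ∀ n, ∃ a, A n = Aa a := fun n => by
      rcases hA n with h | h
      exacts [⟨_, h⟩, ⟨_, h⟩]
    choose a ha using this
    have e : ∀ (v : Fin 4 → ℝ) n, P A (fun n => Nat.casesOn n BH fun i => Bd (c i)) (n + 1) *ᵥ v
        = φ v • g a c n := by
      intro v n
      induction n with
      | zero => rw [P, P, mul_one, ← mulVec_mulVec, ha, g, ← mulVec_smul, ← bh]; rfl
      | succ n ih =>
        rw [P, ← mulVec_mulVec, ← mulVec_mulVec, ih, ha, g, ← mulVec_smul, ← mulVec_smul]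
    rw [← tendsto_add_atTop_iff_nat 1]
    unfold nrm
    rw [← tendsto_zero_iff_norm_tendsto_zero, tendsto_pi_nhds]
    intro i
    rw [tendsto_pi_nhds]
    intro j
    have := ((tendsto_pi_nhds.1 (g0 a)) i).const_mul (φ (Pi.single j 1))
    simp only [Pi.zero_apply, mul_zero] at this ⊢
    refine this.congr fun n => ?_
    have := congrFun (e (Pi.single j 1) n) i
    simpa using this.symm
  · intro B hB C l hC h0 h1
    have := (tendsto_pow_atTop_nhds_zero_of_lt_one h0.le h1).const_mul C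
    rw [mul_zero] at this
    obtain ⟨n, hn, hn1⟩ := ((this.eventually (gt_mem_nhds (show (0 : ℝ) < 1 / 3 by norm_num))).and
      (eventually_ge_atTop 1)).exists
    obtain ⟨v, ⟨A, hA, e⟩, hv⟩ := big B hB n
    refine ⟨A, hA, n, hn1, hn.trans_le ?_⟩
    have b : ∀ i, |v i| ≤ nrm (P A B n) := fun i => by
      have : v i = P A B n i 0 := by
        rw [← e]; simp [mulVec, dotProduct, Fin.sum_univ_four]
      rw [this]
      exact (norm_le_pi_norm (fun j => P A B n i j) 0).trans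
        (norm_le_pi_norm (fun i j => P A B n i j : Fin 4 → Fin 4 → ℝ) i)
    have := b 0; have := b 2; have := b 3
    have : |φ v| ≤ |v 0| + |v 2| + |v 3| := abs_add_three _ _ _
    linarith

end Pool.Agent.Results.MP_3f52e1_an.NoRate
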